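import Mathlib
import Pool.Agent.R758.Cube.Proj

/-!
MP_416390_gt. The answer to Q1 is negative for `(k, n) = (3, 7)`: every three-dimensional subspace
of `ℝ^7` for which the seven edge directions of the cube have projections of equal length satisfies
`F(H)^2 ≤ 157/5`, while the span `H₀` of the rows of an explicit integer `3 × 7` matrix has
`F(H₀)^2 = 57210^2 / 104232508 > 157/5`.

Proof of the upper bound. `F(H)` is the sum of the absolute values of the 35 maximal minors of a
`3 × 7` matrix with orthonormal rows. For each of the eleven classes of sign patterns of the minors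
of seven vectors in general position there is an integer certificate (a sum of squares modulo the
Grassmann-Pluecker relations) for a quadratic inequality between the minors which is an upper bound
for `F(H)^2` by `157/5` when all edges have equal length. The 908 normalized sign patterns are
enumerated and assigned to the classes by the kernel; configurations not in general position follow
by density.
-/

set_option autoImplicit false

open MeasureTheory

namespace Pool.Agent.Results.MP_416390_gt.NotEqual

/-- `ℝ^n` with the Euclidean norm. -/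
abbrev E (n : ℕ) := EuclideanSpace ℝ (Fin n)

/-- Linear subspaces of `ℝ^n`. -/
abbrev Sub (n : ℕ) := Submodule ℝ (E n)

/-- The unit cube `[0,1]^n`. -/
def cube (n : ℕ) : Set (E n) := {x | ∀ i, 0 ≤ x i ∧ x i ≤ 1}

/-- The orthogonal projection of `ℝ^n` onto `H`. -/
noncomputable def P {n : ℕ} (H : Sub n) (x : E n) : H := H.orthogonalProjectionOnto x

/-- The Lebesgue measure inside `H`. -/
noncomputable def vol {n : ℕ} (H : Sub n) (A : Set H) : ENNReal := volume A

/-- `F(H)`: the volume, inside `H`, of the orthogonal projection of the unit cube onto `H`. -/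
noncomputable def F {n : ℕ} (H : Sub n) : ENNReal := vol H (P H '' cube n)

/-- The dimension of `H`. -/
noncomputable def dim {n : ℕ} (H : Sub n) : ℕ := Module.finrank ℝ H

/-- `|P_H e_i|`. -/
noncomputable def edge {n : ℕ} (H : Sub n) (i : Fin n) : ℝ := ‖P H (EuclideanSpace.single i 1)‖

/-- `H` is a maximizer of `F` among the `k`-dimensional subspaces of `ℝ^n`. -/
def IsMaximizer {n : ℕ} (k : ℕ) (H : Sub n) : Prop :=
  dim H = k ∧ ∀ H' : Sub n, dim H' = k → F H' ≤ F H

/-- `|P_H e_1| = ... = |P_H e_n|`. -/
def EqualEdges {n : ℕ} (H : Sub n) : Prop := ∀ i j : Fin n, edge H i = edge H j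

/-- The statement of Q1. -/
def Q1 : Prop := ∀ k n : ℕ, 1 ≤ k → k ≤ n → ∃ H : Sub n, IsMaximizer k H ∧ EqualEdges H

/-- **Q1 is false**, and `(k, n) = (3, 7)` is a counterexample: some three-dimensional subspace
`H₀` of `ℝ^7` has a strictly larger `F(H₀)` than every three-dimensional subspace for which the
projections of the edges of the cube have equal length. In particular no maximizer for `(3, 7)`
has projections of the edges of equal length. -/
theorem result : ¬ Q1 ∧ (∀ H : Sub 7, IsMaximizer 3 H → ¬ EqualEdges H) ∧
    ∃ H₀ : Sub 7, dim H₀ = 3 ∧ ∀ H : Sub 7, dim H = 3 → EqualEdges H → F H < F H₀ := by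
  have key : ∀ H : Sub 7, dim H = 3 → EqualEdges H → F H < F (n := 7) R758.Cube.H0 :=
    fun H hH he => lt_of_le_of_lt (R758.Cube.F_le_of_equal hH he) R758.Cube.lt_F_H0
  have hmax : ∀ H : Sub 7, IsMaximizer 3 H → ¬ EqualEdges H :=
    fun H hH he => absurd (hH.2 _ R758.Cube.finrank_H0) (not_le.mpr (key H hH.1 he))
  refine ⟨fun h => ?_, hmax, R758.Cube.H0, R758.Cube.finrank_H0, key⟩
  obtain ⟨H, h1, h2⟩ := h 3 7 (by norm_num) (by norm_num)
  exact hmax H h1 h2

end Pool.Agent.Results.MP_416390_gt.NotEqual
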